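import Pool.Agent.K3h46.AS.Stm2
import Pool.Agent.K3h17.AS.HEN

/-!
# Project AS2, brick SUB: the substitution `X ↦ X (1 + c X ^ d) ^ (-1 / d)` in Laurent series
-/

set_option autoImplicit false

namespace Pool.Agent.K3h10.AS

open Pool.Agent.K3h46.AS PowerSeries

section

variable {κ κ' : Type} [Field κ] [Field κ']

/-- the `d`-th root of `1 + c X ^ d` -/
theorem exists_root (c : κ') (d : ℕ) (hd : 0 < d) (hdκ : (d : κ') ≠ 0) :
    ∃ w : PowerSeries κ', constantCoeff w = 1 ∧ w ^ d = 1 + C c * X ^ d ∧
      (X : PowerSeries κ') ^ d ∣ w - 1 := by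
  obtain ⟨w, hw1, hw⟩ := Pool.Agent.K3h17.AS.hens d hd hdκ
    (fun i => if i = 0 then -(1 + C c * X ^ d) else 0)
    (by
      intro i hi _
      simp [hi.ne'])
    (by
      simp [hd.ne'])
  have hwd : w ^ d = 1 + C c * X ^ d := by
    have h1 : ∑ i ∈ Finset.range d, (if i = 0 then -(1 + C c * X ^ d) else 0 : PowerSeries κ') * w ^ i
        = -(1 + C c * X ^ d) := by
      rw [Finset.sum_eq_single 0]
      · rw [if_pos rfl, pow_zero, mul_one]
      · intro i _ hi
        rw [if_neg hi, zero_mul]
      · intro h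
        exact absurd (Finset.mem_range.2 hd) h
    rw [h1] at hw
    linear_combination hw
  refine ⟨w, hw1, hwd, ?_⟩
  have h2 : (∑ i ∈ Finset.range d, w ^ i) * (w - 1) = C c * X ^ d := by
    rw [geom_sum_mul, hwd]
    ring
  have h3 : IsUnit (∑ i ∈ Finset.range d, w ^ i) := by
    rw [PowerSeries.isUnit_iff_constantCoeff, map_sum]
    simp only [map_pow, hw1, one_pow, Finset.sum_const, Finset.card_range, nsmul_eq_mul, mul_one]
    exact isUnit_iff_ne_zero.2 hdκ
  rw [← h3.dvd_mul_left, h2]
  exact dvd_mul_left _ _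

/-- powers of a series which is one modulo `X ^ d` -/
theorem dvd_pow_sub_one {d : ℕ} {v : PowerSeries κ'} (hv : (X : PowerSeries κ') ^ d ∣ v - 1) (k : ℕ) :
    (X : PowerSeries κ') ^ d ∣ v ^ k - 1 := by
  have h := sub_dvd_pow_sub_pow v 1 k
  rw [one_pow] at h
  exact hv.trans h

theorem hasSubst_Xv (v : PowerSeries κ') : HasSubst (X * v : PowerSeries κ') :=
  HasSubst.of_constantCoeff_zero' (by rw [map_mul, constantCoeff_X, zero_mul])

/-- the substitution on power series -/
noncomputable def sub (i : κ →+* κ') (v : PowerSeries κ') : PowerSeries κ →+* PowerSeries κ' :=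
  (substAlgHom (R := κ') (hasSubst_Xv v)).toRingHom.comp (PowerSeries.map i)

theorem sub_apply (i : κ →+* κ') (v : PowerSeries κ') (f : PowerSeries κ) :
    sub i v f = subst (X * v : PowerSeries κ') (PowerSeries.map i f) := by
  unfold sub
  rw [RingHom.comp_apply]
  change substAlgHom (hasSubst_Xv v) (PowerSeries.map i f) = _
  rw [coe_substAlgHom]

theorem sub_C (i : κ →+* κ') (v : PowerSeries κ') (a : κ) : sub i v (C a) = C (i a) := by
  rw [sub_apply, PowerSeries.map_C]
  exact subst_C (i a)

theorem sub_X (i : κ →+* κ') (v : PowerSeries κ') : sub i v X = X * v := by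
  rw [sub_apply, PowerSeries.map_X, subst_X (hasSubst_Xv v)]

theorem coeff_sub (i : κ →+* κ') (v : PowerSeries κ') (f : PowerSeries κ) (e : ℕ) :
    coeff e (sub i v f) = ∑ᶠ k, i (coeff k f) * coeff e ((X * v) ^ k) := by
  rw [sub_apply, coeff_subst' (hasSubst_Xv v)]
  refine finsum_congr fun k => ?_
  rw [coeff_map, smul_eq_mul]

theorem coeff_zero_sub (i : κ →+* κ') (v : PowerSeries κ') (f : PowerSeries κ) :
    coeff 0 (sub i v f) = i (coeff 0 f) := by
  rw [coeff_sub, finsum_eq_single _ 0]
  · rw [pow_zero, coeff_zero_one, mul_one]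
  · intro k hk
    rw [mul_pow, coeff_X_pow_mul', if_neg (by omega), mul_zero]

theorem coeff_d_sub (i : κ →+* κ') {d : ℕ} (hd : 0 < d) {v : PowerSeries κ'}
    (hv : (X : PowerSeries κ') ^ d ∣ v - 1) (f : PowerSeries κ) :
    coeff d (sub i v f) = i (coeff d f) := by
  have key : ∀ k, coeff d ((X * v) ^ k) = if k = d then 1 else 0 := by
    intro k
    rcases Nat.eq_zero_or_pos k with h0 | h0
    · rw [h0, pow_zero, coeff_one, if_neg hd.ne', if_neg (by omega)]
    · obtain ⟨u, hu⟩ := dvd_pow_sub_one hv k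
      have h1 : (X * v) ^ k = X ^ k + X ^ (k + d) * u := by
        rw [mul_pow, pow_add, mul_assoc, ← hu]
        ring
      rw [h1, map_add, coeff_X_pow_mul', if_neg (by omega), add_zero, coeff_X_pow]
      by_cases h : d = k
      · rw [if_pos h, if_pos h.symm]
      · rw [if_neg h, if_neg (Ne.symm h)]
  rw [coeff_sub, finsum_eq_single _ d]
  · rw [key, if_pos rfl, mul_one]
  · intro k hk
    rw [key, if_neg hk, mul_zero]

/-- a Laurent series as a power of `X` times a power series -/
theorem split (z : LaurentSeries κ) (N : ℤ) (h : ∀ n < N, z.coeff n = 0) :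
    z = HahnSeries.single N (1 : κ) *
      ((PowerSeries.mk fun k => z.coeff (N + k) : PowerSeries κ) : LaurentSeries κ) := by
  ext n
  rw [HahnSeries.coeff_single_mul, one_mul, PowerSeries.coeff_coe]
  by_cases hn : n - N < 0
  · rw [if_pos hn]
    exact h n (by omega)
  · rw [if_neg hn, coeff_mk]
    congr 1
    omega

theorem coeff_split (f : PowerSeries κ) (N : ℤ) (k : ℤ) :
    (HahnSeries.single N (1 : κ) * (f : LaurentSeries κ)).coeff k =
      if k < N then 0 else coeff (k - N).natAbs f := by
  rw [HahnSeries.coeff_single_mul, one_mul, PowerSeries.coeff_coe]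
  by_cases h : k < N
  · rw [if_pos h, if_pos (by omega)]
  · rw [if_neg h, if_neg (by omega)]

theorem exists_bd (z : LaurentSeries κ) : ∃ N : ℤ, ∀ n < N, z.coeff n = 0 :=
  ⟨z.order, fun _ hn => HahnSeries.coeff_eq_zero_of_lt_order hn⟩

end

theorem t_SUB : S_SUB := by
  intro κ κ' _ _ i δ δ' c d hδ hc hd hdκ Δ Δ' hΔ hΔ'
  obtain ⟨w, hw1, hwd, hw⟩ := exists_root c d hd hdκ
  have hwv : w * w⁻¹ = 1 := PowerSeries.mul_inv_cancel w (by rw [hw1]; exact one_ne_zero)
  obtain ⟨v, hvdef⟩ : ∃ v : PowerSeries κ', v = w⁻¹ := ⟨_, rfl⟩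
  rw [← hvdef] at hwv
  have hv1 : constantCoeff v = 1 := by
    have h := congrArg constantCoeff hwv
    rwa [map_mul, hw1, one_mul, map_one] at h
  have hv : (X : PowerSeries κ') ^ d ∣ v - 1 := by
    have h : v - 1 = -(v * (w - 1)) := by linear_combination hwv
    rw [h, dvd_neg]
    exact hw.mul_left _
  -- the units
  have hcoe : ∀ f g : PowerSeries κ', ((f * g : PowerSeries κ') : LaurentSeries κ') =
      (f : LaurentSeries κ') * (g : LaurentSeries κ') := fun f g => PowerSeries.coe_mul f g
  have hWV : (w : LaurentSeries κ') * (v : LaurentSeries κ') = 1 := by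
    rw [← hcoe, hwv, PowerSeries.coe_one]
  have hW0 : (w : LaurentSeries κ') ≠ 0 := left_ne_zero_of_mul_eq_one hWV
  have hV0 : (v : LaurentSeries κ') ≠ 0 := right_ne_zero_of_mul_eq_one hWV
  have hX0 : (HahnSeries.single (1 : ℤ) (1 : κ') : LaurentSeries κ') ≠ 0 :=
    HahnSeries.single_ne_zero one_ne_zero
  have hXv : ((X * v : PowerSeries κ') : LaurentSeries κ') =
      HahnSeries.single (1 : ℤ) (1 : κ') * (v : LaurentSeries κ') := by
    rw [hcoe, PowerSeries.coe_X]
  have hu : ∀ y : Submonoid.powers (PowerSeries.X : PowerSeries κ),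
      IsUnit (((HahnSeries.ofPowerSeries ℤ κ').comp (sub i v)) y) := by
    rintro ⟨y, n, rfl⟩
    rw [map_pow, RingHom.comp_apply, sub_X]
    refine (isUnit_iff_ne_zero.2 ?_).pow n
    change ((X * v : PowerSeries κ') : LaurentSeries κ') ≠ 0
    rw [hXv]
    exact mul_ne_zero hX0 hV0
  obtain ⟨Θ, hΘ⟩ : ∃ Θ : LaurentSeries κ →+* LaurentSeries κ', ∀ f : PowerSeries κ,
      Θ (f : LaurentSeries κ) = ((sub i v f : PowerSeries κ') : LaurentSeries κ') :=
    ⟨IsLocalization.lift hu, fun f => IsLocalization.lift_eq hu f⟩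
  have hC : ∀ a : κ, Θ (HahnSeries.C a) = HahnSeries.C (i a) := by
    intro a
    have h := hΘ (PowerSeries.C a)
    rwa [sub_C, PowerSeries.coe_C, PowerSeries.coe_C] at h
  have hΘX : Θ (HahnSeries.single (1 : ℤ) (1 : κ)) =
      HahnSeries.single (1 : ℤ) (1 : κ') * (v : LaurentSeries κ') := by
    have h := hΘ (PowerSeries.X : PowerSeries κ)
    rwa [sub_X, PowerSeries.coe_X, hXv] at h
  have hΘs : ∀ N : ℤ, Θ (HahnSeries.single N (1 : κ)) =
      HahnSeries.single N (1 : κ') * (v : LaurentSeries κ') ^ N := by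
    intro N
    rw [RatFunc.single_zpow, map_zpow₀, hΘX, mul_zpow, RatFunc.single_zpow N]
  have hunit : ∀ N : ℤ, ∃ f : PowerSeries κ', constantCoeff f = 1 ∧
      (v : LaurentSeries κ') ^ N = (f : LaurentSeries κ') := by
    intro N
    cases N with
    | ofNat n =>
      refine ⟨v ^ n, by rw [map_pow, hv1, one_pow], ?_⟩
      rw [Int.ofNat_eq_natCast, zpow_natCast, PowerSeries.coe_pow]
    | negSucc n =>
      refine ⟨w ^ (n + 1), by rw [map_pow, hw1, one_pow], ?_⟩
      rw [zpow_negSucc, PowerSeries.coe_pow, ← inv_pow]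
      congr 1
      exact inv_eq_of_mul_eq_one_left hWV
  have hlead : ∀ (z : LaurentSeries κ) (N : ℤ), (∀ n < N, z.coeff n = 0) →
      (∀ n < N, (Θ z).coeff n = 0) ∧ (Θ z).coeff N = i (z.coeff N) := by
    intro z N hz
    obtain ⟨f, hf1, hf⟩ := hunit N
    have h1 : Θ z = HahnSeries.single N (1 : κ') *
        ((f * sub i v (PowerSeries.mk fun k => z.coeff (N + k)) : PowerSeries κ') :
          LaurentSeries κ') := by
      conv_lhs => rw [split z N hz]
      rw [map_mul, hΘs, hΘ, hf, hcoe, mul_assoc]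
    constructor
    · intro n hn
      rw [h1, coeff_split, if_pos hn]
    · rw [h1, coeff_split, if_neg (lt_irrefl N), sub_self, Int.natAbs_zero,
        coeff_zero_eq_constantCoeff_apply, map_mul, hf1, one_mul,
        ← coeff_zero_eq_constantCoeff_apply, coeff_zero_sub, coeff_mk, Nat.cast_zero, add_zero]
  have hd' : Θ (HahnSeries.single (-(d : ℤ)) (1 : κ)) =
      HahnSeries.single (-(d : ℤ)) (1 : κ') + HahnSeries.C c := by
    have h1 : (v : LaurentSeries κ') ^ (-(d : ℤ)) = (w : LaurentSeries κ') ^ d := by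
      rw [zpow_neg, zpow_natCast, ← inv_pow]
      congr 1
      exact inv_eq_of_mul_eq_one_left hWV
    rw [hΘs, h1, ← PowerSeries.coe_pow, hwd, PowerSeries.coe_add, PowerSeries.coe_one, hcoe,
      PowerSeries.coe_C, PowerSeries.coe_pow, PowerSeries.coe_X, HahnSeries.single_pow, mul_add,
      mul_one, mul_left_comm, HahnSeries.single_mul_single]
    simp
  refine ⟨Θ, hC, ?_, hlead, ?_, ?_⟩
  · intro a
    have h1 : (HahnSeries.single (-(d : ℤ)) a : LaurentSeries κ) =
        HahnSeries.single (-(d : ℤ)) (1 : κ) * HahnSeries.C a := by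
      rw [HahnSeries.C_apply, HahnSeries.single_mul_single, add_zero, one_mul]
    rw [h1, map_mul, hd', hC, add_mul, ← map_mul, HahnSeries.C_apply, HahnSeries.single_mul_single,
      add_zero, one_mul]
  · intro z hz
    have h1 : Θ z = (HahnSeries.single (-(d : ℤ)) (1 : κ') + HahnSeries.C c) *
        ((sub i v (PowerSeries.mk fun k => z.coeff (-(d : ℤ) + k)) : PowerSeries κ') :
          LaurentSeries κ') := by
      conv_lhs => rw [split z (-(d : ℤ)) hz]
      rw [map_mul, hd', hΘ]
    rw [h1, add_mul, HahnSeries.coeff_add, coeff_split, if_neg (by omega), HahnSeries.C_apply,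
      HahnSeries.coeff_single_mul, sub_zero, PowerSeries.coeff_coe, if_neg (lt_irrefl 0)]
    have h2 : ((0 : ℤ) - -(d : ℤ)).natAbs = d := by omega
    rw [h2, coeff_d_sub i hd hv, Int.natAbs_zero, coeff_zero_sub, coeff_mk, coeff_mk,
      Nat.cast_zero, add_zero, neg_add_cancel]
  · -- the derivations
    have hΔs : ∀ N : ℤ, Δ (HahnSeries.single N (1 : κ)) = 0 := by
      intro N
      ext n
      rw [hΔ, HahnSeries.coeff_zero]
      by_cases h : n = N
      · rw [h, HahnSeries.coeff_single_same, Derivation.map_one_eq_zero]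
      · rw [HahnSeries.coeff_single_of_ne h, map_zero]
    have hΔ's : ∀ (N : ℤ) (a : κ'), δ' a = 0 → Δ' (HahnSeries.single N a) = 0 := by
      intro N a ha
      ext n
      rw [hΔ', HahnSeries.coeff_zero]
      by_cases h : n = N
      · rw [h, HahnSeries.coeff_single_same, ha]
      · rw [HahnSeries.coeff_single_of_ne h, map_zero]
    have hΔw : Δ' (w : LaurentSeries κ') = 0 := by
      have h1 : (w : LaurentSeries κ') ^ d = 1 + HahnSeries.single (d : ℤ) c := by
        rw [← PowerSeries.coe_pow, hwd, PowerSeries.coe_add, PowerSeries.coe_one, hcoe,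
          PowerSeries.coe_C, PowerSeries.coe_pow, PowerSeries.coe_X, HahnSeries.single_pow,
          HahnSeries.C_apply, HahnSeries.single_mul_single]
        simp
      have h2 := congrArg Δ' h1
      rw [map_add, Derivation.map_one_eq_zero, hΔ's _ _ hc, add_zero, Derivation.leibniz_pow] at h2
      have h3 : ((d : LaurentSeries κ')) ≠ 0 := by
        intro h
        apply hdκ
        have h4 : HahnSeries.C (d : κ') = (0 : LaurentSeries κ') := by
          rw [map_natCast]
          exact h
        exact HahnSeries.C_injective (h4.trans (map_zero HahnSeries.C).symm)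
      rw [nsmul_eq_mul, smul_eq_mul] at h2
      rcases mul_eq_zero.1 h2 with h | h
      · exact absurd h h3
      · rcases mul_eq_zero.1 h with h | h
        · exact absurd h (pow_ne_zero _ hW0)
        · exact h
    have hΔv : Δ' (v : LaurentSeries κ') = 0 := by
      have h := congrArg Δ' hWV
      rw [Derivation.leibniz, Derivation.map_one_eq_zero, hΔw, smul_zero, add_zero,
        smul_eq_mul] at h
      exact (mul_eq_zero.1 h).resolve_left hW0
    have hΔvN : ∀ N : ℤ, Δ' (HahnSeries.single N (1 : κ') * (v : LaurentSeries κ') ^ N) = 0 := by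
      intro N
      rw [Derivation.leibniz, hΔ's N 1 (Derivation.map_one_eq_zero δ'), smul_zero, add_zero,
        Derivation.leibniz_zpow, hΔv, smul_zero, smul_zero, smul_zero]
    have hmon : ∀ (N : ℤ) (a : κ), Δ' (Θ (HahnSeries.single N a)) = Θ (Δ (HahnSeries.single N a)) := by
      intro N a
      have h1 : (HahnSeries.single N a : LaurentSeries κ) =
          HahnSeries.single N (1 : κ) * HahnSeries.C a := by
        rw [HahnSeries.C_apply, HahnSeries.single_mul_single, add_zero, one_mul]
      have h2 : Δ (HahnSeries.C a) = HahnSeries.C (δ a) := by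
        ext n
        rw [hΔ, HahnSeries.C_apply, HahnSeries.C_apply]
        by_cases h : n = 0
        · rw [h, HahnSeries.coeff_single_same, HahnSeries.coeff_single_same]
        · rw [HahnSeries.coeff_single_of_ne h, HahnSeries.coeff_single_of_ne h, map_zero]
      have h3 : Δ' (HahnSeries.C (i a)) = HahnSeries.C (δ' (i a)) := by
        ext n
        rw [hΔ', HahnSeries.C_apply, HahnSeries.C_apply]
        by_cases h : n = 0
        · rw [h, HahnSeries.coeff_single_same, HahnSeries.coeff_single_same]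
        · rw [HahnSeries.coeff_single_of_ne h, HahnSeries.coeff_single_of_ne h, map_zero]
      rw [h1, map_mul, Derivation.leibniz, Derivation.leibniz, hΔs, hC, hΘs, hΔvN, h2, h3, hδ,
        smul_zero, smul_zero, add_zero, add_zero, smul_eq_mul, smul_eq_mul, map_mul, hΘs, hC]
    intro z
    ext n
    obtain ⟨N, hN⟩ := exists_bd z
    obtain ⟨K, hK⟩ : ∃ K : ℕ, n < N + K := ⟨(n - N).toNat + 1, by omega⟩
    obtain ⟨z', hz'⟩ : ∃ z' : LaurentSeries κ, z' = z - ∑ k ∈ Finset.range K,
        HahnSeries.single (N + k : ℤ) (z.coeff (N + k)) := ⟨_, rfl⟩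
    have hz : z = ∑ k ∈ Finset.range K, HahnSeries.single (N + k : ℤ) (z.coeff (N + k)) + z' := by
      rw [hz']
      ring
    have hzc : ∀ m < N + (K : ℤ), z'.coeff m = 0 := by
      intro m hm
      rw [hz', HahnSeries.coeff_sub, HahnSeries.coeff_sum]
      by_cases h : m < N
      · rw [hN m h, Finset.sum_eq_zero, sub_zero]
        intro k _
        exact HahnSeries.coeff_single_of_ne (by omega)
      · rw [Finset.sum_eq_single (m - N).toNat]
        · have e : N + ((m - N).toNat : ℤ) = m := by omega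
          rw [e, HahnSeries.coeff_single_same, sub_self]
        · intro k _ hk
          exact HahnSeries.coeff_single_of_ne (by omega)
        · intro h'
          exact absurd (Finset.mem_range.2 (by omega)) h'
    have e1 : (Δ' (Θ z')).coeff n = 0 := by
      rw [hΔ', (hlead z' _ hzc).1 n hK, map_zero]
    have e2 : (Θ (Δ z')).coeff n = 0 := by
      refine (hlead (Δ z') (N + K) ?_).1 n hK
      intro m hm
      rw [hΔ, hzc m hm, map_zero]
    have e3 : Δ' (Θ z) - Θ (Δ z) = Δ' (Θ z') - Θ (Δ z') := by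
      conv_lhs => rw [hz]
      rw [map_add, map_add, map_add, map_add, map_sum, map_sum, map_sum, map_sum,
        Finset.sum_congr rfl fun (k : ℕ) _ => hmon (N + (k : ℤ)) (z.coeff (N + (k : ℤ)))]
      ring
    have e4 := congrArg (fun y : LaurentSeries κ' => y.coeff n) e3
    simp only [HahnSeries.coeff_sub, e1, e2, sub_self] at e4
    exact sub_eq_zero.1 e4

end Pool.Agent.K3h10.AS
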